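import Mathlib
import Pool.Agent.W5h37.Cohn.Pairs

/-!
# Cohn's equation `(a ^ n - 1)(b ^ n - 1) = x ^ 2`: almost all pairs, all exponents at once

There is an absolute constant `δ > 0` such that for all large `N` at most `N ^ (2 - δ)` of the pairs
`2 ≤ a < b ≤ N` admit a solution `(n, x)` with any exponent `n ≥ 1`.
-/

set_option autoImplicit false

namespace Pool.Agent.Results.MP_4ba7fc_nt.AlmostAllPairs

/-- the equation has a solution for the pair `(a, b)`, with some exponent `n ≥ 1` -/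
def Solvable (a b : ℕ) : Prop :=
  ∃ n x : ℕ, 1 ≤ n ∧ 1 ≤ x ∧ (a ^ n - 1) * (b ^ n - 1) = x ^ 2

open Finset Pool.Agent.W5h37.Cohn

theorem result : ∃ δ : ℝ, 0 < δ ∧ ∃ N₀ : ℕ, ∀ N : ℕ, N₀ ≤ N →
    (({p : ℕ × ℕ | 2 ≤ p.1 ∧ p.1 < p.2 ∧ p.2 ≤ N ∧ Solvable p.1 p.2}.ncard : ℕ) : ℝ) ≤
      (N : ℝ) ^ (2 - δ) := by
  classical
  obtain ⟨δ, h, N₁, hN₁⟩ := all_pairs
  refine ⟨δ, h, N₁, fun N hN => ?_⟩
  set s := {p : ℕ × ℕ | 2 ≤ p.1 ∧ p.1 < p.2 ∧ p.2 ≤ N ∧ Solvable p.1 p.2} with hs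
  have hfin : s.Finite := by
    refine (((range (N + 1)) ×ˢ (range (N + 1)) : Finset (ℕ × ℕ)).finite_toSet).subset ?_
    rintro e ⟨h1, h2, h3, -⟩
    simp only [coe_product, Set.mem_prod, mem_coe, mem_range]
    omega
  rw [Set.ncard_eq_toFinset_card s hfin]
  refine hN₁ N hN _ ?_
  intro p hp
  rw [Set.Finite.mem_toFinset] at hp
  obtain ⟨e1, e2, e3, n, x, e4, e5, e6⟩ := hp
  exact ⟨e1, e2, e3, n, x, e4, e6⟩

end Pool.Agent.Results.MP_4ba7fc_nt.AlmostAllPairs
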