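import Mathlib
import Pool.Agent.W5h37.Cohn.Line

/-!
# Cohn's equation `(a ^ n - 1)(b ^ n - 1) = x ^ 2`: one fixed base

There is an absolute constant `δ > 0` such that for every fixed `a ≥ 2` not of the form
`(2 e²) ^ (2 ^ r)` with `r ≥ 2` (for instance every `a` that is not a fourth power) and all large
`N`, at most `N ^ (1 - δ)` of the `b ≤ N`, `b ≠ a`, admit a solution `(n, x)` with any exponent
`n ≥ 1`.
-/

set_option autoImplicit false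

namespace Pool.Agent.Results.MP_4ba7fc_nt.FixedBase

/-- the equation has a solution for the pair `(a, b)`, with some exponent `n ≥ 1` -/
def Solvable (a b : ℕ) : Prop :=
  ∃ n x : ℕ, 1 ≤ n ∧ 1 ≤ x ∧ (a ^ n - 1) * (b ^ n - 1) = x ^ 2

open Finset Pool.Agent.W5h37.Cohn

theorem result : ∃ δ : ℝ, 0 < δ ∧ ∀ a : ℕ, 2 ≤ a →
    (¬ ∃ e r : ℕ, 2 ≤ r ∧ a = (2 * e ^ 2) ^ (2 ^ r)) →
    ∃ N₀ : ℕ, ∀ N : ℕ, N₀ ≤ N →
    (({b : ℕ | 2 ≤ b ∧ b ≠ a ∧ b ≤ N ∧ Solvable a b}.ncard : ℕ) : ℝ) ≤ (N : ℝ) ^ (1 - δ) := by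
  classical
  obtain ⟨δ, h, hl⟩ := all_line
  refine ⟨δ, h, fun a ha hbad => ?_⟩
  obtain ⟨N₂, hN₂⟩ := hl a ha hbad
  refine ⟨N₂, fun N hN => ?_⟩
  set s := {b : ℕ | 2 ≤ b ∧ b ≠ a ∧ b ≤ N ∧ Solvable a b} with hs
  have hfin : s.Finite := by
    refine ((range (N + 1)).finite_toSet).subset ?_
    rintro e ⟨h1, h2, h3, -⟩
    simp only [mem_coe, mem_range]
    omega
  rw [Set.ncard_eq_toFinset_card s hfin]
  refine hN₂ N hN _ ?_
  intro p hp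
  rw [Set.Finite.mem_toFinset] at hp
  obtain ⟨e1, e2, e3, n, x, e4, e5, e6⟩ := hp
  exact ⟨e1, e2, e3, n, x, e4, e6⟩

end Pool.Agent.Results.MP_4ba7fc_nt.FixedBase
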